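import Pool.Agent.H147_fact.Fixed
import Pool.Agent.Helper929.FP.Fin

/-!
# Solutions of `n! + x = x ^ k` are sparse

The number of solutions `(n, x, k)` of `n! + x = x ^ k`, `x ≥ 2`, `k ≥ 3`, with `n` in an interval
`(N - H, N]`, `0 ≤ H ≤ N`, is `O(H ^ (5 / 6))`, with an absolute implied constant.
-/

namespace Pool.Agent.Results.MP_86ed72_nt.SparseSolutions

open Finset Pool.Agent.H147

theorem near_sol {n x k : ℕ} (hx : 2 ≤ x) (hk : 3 ≤ k) (hkn : k ≤ n ^ 2)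
    (h : n.factorial + x = x ^ k) : Near k n := by
  have hkpos : (0 : ℝ) < k := by exact_mod_cast (by omega : 0 < k)
  have hk0 : (k : ℝ) ≠ 0 := hkpos.ne'
  have hxr : (2 : ℝ) ≤ x := by exact_mod_cast hx
  set g : ℝ := ((n.factorial : ℝ)) ^ (1 / (k : ℝ)) with hg
  have hfpos : (0 : ℝ) < n.factorial := by exact_mod_cast n.factorial_pos
  have hgpos : 0 < g := by positivity
  have hgk : g ^ k = n.factorial := by
    rw [hg, ← Real.rpow_natCast, ← Real.rpow_mul hfpos.le, one_div_mul_cancel hk0, Real.rpow_one]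
  have hr : (n.factorial : ℝ) + x = (x : ℝ) ^ k := by exact_mod_cast h
  have hgx : g ≤ x := by
    by_contra hcon
    push Not at hcon
    have h1 : (x : ℝ) ^ k < g ^ k := pow_lt_pow_left₀ hcon (by linarith) (by omega)
    rw [hgk] at h1
    linarith
  have hGG : GG k n = k * g := rfl
  refine ⟨k * x, by positivity, ?_⟩
  rw [hGG]
  push_cast
  rw [← mul_sub, abs_of_nonneg (mul_nonneg hkpos.le (by linarith)), le_div_iff₀ (by positivity)]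
  obtain ⟨j, rfl⟩ : ∃ j, k = j + 3 := ⟨k - 3, by omega⟩
  have h1 : ((x : ℝ) - g) * x ^ (j + 2) ≤ x := by
    have h2 : g ^ (j + 3) ≤ g * x ^ (j + 2) := by
      rw [pow_succ g (j + 2), mul_comm]
      exact mul_le_mul_of_nonneg_left (pow_le_pow_left₀ hgpos.le hgx _) hgpos.le
    have h3 : (x : ℝ) ^ (j + 3) = x * x ^ (j + 2) := by rw [pow_succ' (x : ℝ) (j + 2)]
    rw [sub_mul]
    rw [hgk] at h2
    rw [h3] at hr
    linarith
  have h4 : ((x : ℝ) - g) * g ≤ 1 := by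
    have h5 : ((x : ℝ) - g) * x ^ (j + 1) ≤ 1 := by
      have h6 : (x : ℝ) ^ (j + 2) = x ^ (j + 1) * x := pow_succ _ _
      rw [h6] at h1
      have h7 : (((x : ℝ) - g) * x ^ (j + 1)) * x ≤ 1 * x := by linarith
      exact le_of_mul_le_mul_right h7 (by linarith)
    refine le_trans ?_ h5
    apply mul_le_mul_of_nonneg_left _ (by linarith)
    refine hgx.trans ?_
    have : (1 : ℝ) ≤ x ^ j := one_le_pow₀ (by linarith)
    rw [pow_succ]
    nlinarith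
  have h8 : (((j + 3 : ℕ) : ℝ)) ^ 2 ≤ (n : ℝ) ^ 4 := by
    have h9 : (((j + 3 : ℕ) : ℝ)) ≤ (n : ℝ) ^ 2 := by exact_mod_cast hkn
    calc (((j + 3 : ℕ) : ℝ)) ^ 2 ≤ ((n : ℝ) ^ 2) ^ 2 := by gcongr
      _ = (n : ℝ) ^ 4 := by ring
  push_cast at h8 ⊢
  have h10 : (0 : ℝ) ≤ ((j : ℝ) + 3) ^ 2 := by positivity
  calc ((j : ℝ) + 3) * (x - g) * (((j : ℝ) + 3) * g) = ((j : ℝ) + 3) ^ 2 * ((x - g) * g) := by ring
    _ ≤ ((j : ℝ) + 3) ^ 2 * 1 := mul_le_mul_of_nonneg_left h4 h10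
    _ ≤ (n : ℝ) ^ 4 := by linarith

theorem x_unique {x x' k m : ℕ} (hx : 2 ≤ x) (hx' : 2 ≤ x') (hk : 3 ≤ k) (h : m + x = x ^ k)
    (h' : m + x' = x' ^ k) : x = x' := by
  have key : ∀ a b : ℕ, 2 ≤ a → a < b → m + a = a ^ k → m + b = b ^ k → False := by
    intro a b ha hab h1 h2
    obtain ⟨j, rfl⟩ : ∃ j, k = j + 2 := ⟨k - 2, by omega⟩
    have h3 : a ^ (j + 1) ≤ b ^ (j + 1) := Nat.pow_le_pow_left hab.le _
    have h4 : 2 ≤ a ^ (j + 1) := by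
      calc 2 ≤ a := ha
        _ = a ^ 1 := (pow_one a).symm
        _ ≤ a ^ (j + 1) := Nat.pow_le_pow_right (by omega) (by omega)
    have h5 : a ^ (j + 2) = a * a ^ (j + 1) := pow_succ' a (j + 1)
    have h6 : b ^ (j + 2) = b * b ^ (j + 1) := pow_succ' b (j + 1)
    rw [h5] at h1
    rw [h6] at h2
    have h7 : b * a ^ (j + 1) ≤ b * b ^ (j + 1) := Nat.mul_le_mul_left _ h3
    obtain ⟨c, rfl⟩ : ∃ c, b = a + c := ⟨b - a, by omega⟩
    have h8 : (a + c) * a ^ (j + 1) = a * a ^ (j + 1) + c * a ^ (j + 1) := by ring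
    have h9 : c * 2 ≤ c * a ^ (j + 1) := Nat.mul_le_mul_left _ h4
    omega
  rcases Nat.lt_trichotomy x x' with h1 | h1 | h1
  · exact (key x x' hx h1 h h').elim
  · exact h1
  · exact (key x' x hx' h1 h' h).elim

open Classical in
theorem result :
    ∃ C : ℝ, ∀ N H : ℕ, H ≤ N →
      (({p : ℕ × ℕ × ℕ | 2 ≤ p.2.1 ∧ 3 ≤ p.2.2 ∧ p.1.factorial + p.2.1 = p.2.1 ^ p.2.2 ∧
          N - H < p.1 ∧ p.1 ≤ N}.ncard : ℕ) : ℝ) ≤ C * (H : ℝ) ^ (5 / 6 : ℝ) := by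
  set w : ℕ → ℕ := fun n => (({3, 5} : Finset ℕ).filter
    (fun k => ∃ x, 2 ≤ x ∧ n.factorial + x = x ^ k)).card with hw
  obtain ⟨C, -, hC⟩ := count_fixed {3, 5} (by intro t ht; simp at ht; omega) w 3 (by
    intro n hn
    apply card_le_card
    intro k hk
    rw [mem_filter] at hk ⊢
    obtain ⟨h1, x, hx, h2⟩ := hk
    have h3 : k = 3 ∨ k = 5 := by simpa using h1
    refine ⟨h1, near_sol hx (by omega) ?_ h2⟩
    have : 9 ≤ n ^ 2 := by nlinarith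
    omega)
  refine ⟨C, fun N H hHN => le_trans ?_ (hC N H hHN)⟩
  have hkey : ({p : ℕ × ℕ × ℕ | 2 ≤ p.2.1 ∧ 3 ≤ p.2.2 ∧ p.1.factorial + p.2.1 = p.2.1 ^ p.2.2 ∧
          N - H < p.1 ∧ p.1 ≤ N}).ncard
      ≤ ((Ioc (N - H) N).sigma (fun n => ({3, 5} : Finset ℕ).filter
    (fun k => ∃ x, 2 ≤ x ∧ n.factorial + x = x ^ k))).card := by
    rw [← Set.ncard_coe_finset]
    apply Set.ncard_le_ncard_of_injOn (fun p : ℕ × ℕ × ℕ => (⟨p.1, p.2.2⟩ : Σ _ : ℕ, ℕ))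
    · rintro ⟨n, x, k⟩ ⟨h1, h2, h3, h4, h5⟩
      simp only at h1 h2 h3 h4 h5
      rw [mem_coe, mem_sigma]
      refine ⟨mem_Ioc.2 ⟨h4, h5⟩, ?_⟩
      rw [mem_filter]
      have h6 := FacPow.exponent h1 h2 h3
      exact ⟨by simpa using h6, x, h1, h3⟩
    · rintro ⟨n, x, k⟩ ⟨h1, h2, h3, h4, h5⟩ ⟨n', x', k'⟩ ⟨h1', h2', h3', h4', h5'⟩ hpp
      simp only [Sigma.mk.injEq, heq_eq_eq] at hpp h1 h2 h3 h4 h5 h1' h2' h3' h4' h5'
      obtain ⟨e1, e2⟩ := hpp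
      subst e1 e2
      have := x_unique h1 h1' h2 h3 h3'
      rw [this]
  rw [card_sigma] at hkey
  exact_mod_cast hkey

end Pool.Agent.Results.MP_86ed72_nt.SparseSolutions
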